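import Pool.Agent.W37.SG.Stm2

/-!
SG-LAM (project SG of helper37, MP_9a3597_al): the lattice `Λ` of `p`-adic vector fields.
-/

namespace Pool.Agent.W450.SG.LAM

open Pool.Agent.W37.SG

set_option linter.unusedSectionVars false
set_option linter.unusedVariables false

variable {p : ℕ} [Fact p.Prime]

theorem dvd_iff_toZMod (z : ℤ_[p]) : (p : ℤ_[p]) ∣ z ↔ PadicInt.toZMod z = 0 := by
  rw [← RingHom.mem_ker, PadicInt.ker_toZMod, PadicInt.maximalIdeal_eq_span_p,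
    Ideal.mem_span_singleton]

theorem p_ne : (p : ℤ_[p]) ≠ 0 := by
  have := (Fact.out : p.Prime).ne_zero
  exact_mod_cast this

theorem pow_ne (n : ℕ) : (p : ℤ_[p]) ^ n ≠ 0 := pow_ne_zero _ p_ne

/-- limits in `ℤ_p` -/
theorem exists_lim (a : ℕ → ℤ_[p]) (h : ∀ m, (p : ℤ_[p]) ^ (m + 1) ∣ a (m + 1) - a m) :
    ∃ f, ∀ m, (p : ℤ_[p]) ^ (m + 1) ∣ f - a m := by
  have key : ∀ m k, (p : ℤ_[p]) ^ (m + 1) ∣ a (m + k) - a m := by
    intro m k
    induction k with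
    | zero => simp
    | succ k ih =>
      have h1 := h (m + k)
      have h2 : (p : ℤ_[p]) ^ (m + 1) ∣ (p : ℤ_[p]) ^ (m + k + 1) := pow_dvd_pow _ (by omega)
      have := dvd_add (h2.trans h1) ih
      have e : a (m + (k + 1)) - a m = a (m + k + 1) - a (m + k) + (a (m + k) - a m) := by
        rw [← add_assoc]; ring
      rw [e]; exact this
  have hI : ∀ (n : ℕ) (x y : ℤ_[p]),
      x ≡ y [SMOD ((IsLocalRing.maximalIdeal ℤ_[p]) ^ n • ⊤ : Submodule ℤ_[p] ℤ_[p])] ↔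
      (p : ℤ_[p]) ^ n ∣ x - y := by
    intro n x y
    rw [SModEq.sub_mem, PadicInt.maximalIdeal_eq_span_p, Ideal.span_singleton_pow, smul_eq_mul,
      Ideal.mul_top, Ideal.mem_span_singleton]
  obtain ⟨L, hL⟩ := IsPrecomplete.prec
    (inferInstance : IsPrecomplete (IsLocalRing.maximalIdeal ℤ_[p]) ℤ_[p]) (f := a) (by
      intro m n hmn
      rw [hI]
      obtain ⟨k, rfl⟩ := Nat.exists_eq_add_of_le hmn
      have := key m k
      have h3 : (p : ℤ_[p]) ^ m ∣ (p : ℤ_[p]) ^ (m + 1) := pow_dvd_pow _ (by omega)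
      have h4 := h3.trans this
      rw [← dvd_neg, neg_sub]
      exact h4)
  refine ⟨L, fun m => ?_⟩
  have h1 := (hI (m + 1) _ _).1 (hL (m + 1))
  have h2 := h m
  have e : L - a m = -(a (m + 1) - L) + (a (m + 1) - a m) := by ring
  rw [e]
  exact dvd_add (by rwa [dvd_neg]) h2

theorem agr_tri {g : Pm p} (hg : IsTri p g) {k : ℕ} {x y : ℕ → ZMod p} (h : Agr p k x y) :
    Agr p k (g x) (g y) := by
  intro j hj
  have := hg j x y (fun i hi => h i (hi.trans hj))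
  have hxy := h j hj
  rw [hxy] at this
  exact sub_left_inj.1 this

theorem agr_mono {k l : ℕ} (hkl : k ≤ l) {x y : ℕ → ZMod p} (h : Agr p l x y) : Agr p k x y :=
  fun j hj => h j (hj.trans_le hkl)

theorem isKer_mono {k l : ℕ} (hkl : k ≤ l) {g : Pm p} (h : IsKer p l g) : IsKer p k g :=
  fun x j hj => h x j (hj.trans_le hkl)

theorem isKer_pow {k : ℕ} {g : Pm p} (h : IsKer p k g) (t : ℕ) : IsKer p k (g ^ t) := by
  induction t with
  | zero => intro x i _; simp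
  | succ t ih =>
    intro x i hi
    rw [pow_succ, Equiv.Perm.mul_apply, ih _ _ hi, h _ _ hi]

theorem isKer_mul {k : ℕ} {g h : Pm p} (hg : IsKer p k g) (hh : IsKer p k h) :
    IsKer p k (g * h) := by
  intro x i hi
  rw [Equiv.Perm.mul_apply, hg _ _ hi, hh _ _ hi]

theorem isKer_inv {k : ℕ} {g : Pm p} (hg : IsKer p k g) : IsKer p k g⁻¹ := by
  intro x i hi
  have := hg (g⁻¹ x) i hi
  have e : g (g⁻¹ x) = x := g.apply_symm_apply x
  rw [e] at this
  exact this.symm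

theorem isKer_conj {k : ℕ} {g h : Pm p} (hg : IsKer p k g) (hh' : IsTri p h⁻¹) :
    IsKer p k (h⁻¹ * g * h) := by
  intro x
  have : Agr p k ((h⁻¹ : Pm p) (g (h x))) ((h⁻¹ : Pm p) (h x)) := by
    apply agr_tri hh'
    intro i hi
    exact hg _ _ hi
  have e : (h⁻¹ : Pm p) (h x) = x := h.symm_apply_apply x
  rw [e] at this
  intro i hi
  exact this i hi

section

variable {s : ℕ} {Q : Subgroup (Pm p)} {X : Pm p} {J α : ℕ} {Φ : Zf p}

/-- displacement -/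
noncomputable def du (Φ : Zf p) (u : Pm p) (x : ℕ → ZMod p) : ℤ_[p] := Φ (u x) - Φ x

theorem du_mul (Φ : Zf p) (u v : Pm p) (x : ℕ → ZMod p) :
    du Φ (u * v) x = du Φ u (v x) + du Φ v x := by
  unfold du
  rw [Equiv.Perm.mul_apply]; ring

theorem du_one (Φ : Zf p) (x : ℕ → ZMod p) : du Φ 1 x = 0 := by
  unfold du; simp

theorem phi_pow (B : BHyp p s Q X J α Φ) (n : ℕ) (x : ℕ → ZMod p) :
    Φ ((X ^ n) x) = Φ x + n := by
  induction n generalizing x with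
  | zero => simp
  | succ n ih =>
    rw [pow_succ', Equiv.Perm.mul_apply, B.chart.shift, ih]
    push_cast; ring

theorem f1 (B : BHyp p s Q X J α Φ) {j : ℕ} (hj : s ≤ j) {u : Pm p} (hu : IsKer p j u)
    (x : ℕ → ZMod p) : (p : ℤ_[p]) ^ (j - s) ∣ du Φ u x := by
  have h1 : Agr p s (u x) x := fun i hi => hu x i (hi.trans_le hj)
  refine (B.chart.base (j - s) (u x) x h1).1 ?_
  rw [Nat.add_sub_cancel' hj]
  exact fun i hi => hu x i hi

theorem f2 (B : BHyp p s Q X J α Φ) {j k : ℕ} (hj : s ≤ j) (hk : s ≤ k) {u : Pm p}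
    (hu : IsKer p j u) (h : ∀ x, (p : ℤ_[p]) ^ (k - s) ∣ du Φ u x) : IsKer p k u := by
  intro x
  have h1 : Agr p s (u x) x := fun i hi => hu x i (hi.trans_le hj)
  have := (B.chart.base (k - s) (u x) x h1).2 (h x)
  rw [Nat.add_sub_cancel' hk] at this
  exact this

/-- powers -/
theorem f4 (B : BHyp p s Q X J α Φ)
    (hD : ∀ i j, J ≤ i → J ≤ j → ∀ u ∈ Q, IsKer p j u → ∀ x y, Agr p i x y →
    (p : ℤ_[p]) ^ (i + j - J - s) ∣ (Φ (u x) - Φ x) - (Φ (u y) - Φ y))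
    {j : ℕ} (hj : J ≤ j) {u : Pm p} (huQ : u ∈ Q) (hu : IsKer p j u) (t : ℕ)
    (x : ℕ → ZMod p) : (p : ℤ_[p]) ^ (2 * j - J - s) ∣ du Φ (u ^ t) x - t * du Φ u x := by
  induction t with
  | zero => simp [du_one]
  | succ t ih =>
    rw [pow_succ', du_mul]
    have h1 := hD j j hj hj u huQ hu ((u ^ t) x) x (fun i hi => isKer_pow hu t x i hi)
    rw [← two_mul] at h1
    have e : du Φ u ((u ^ t) x) + du Φ (u ^ t) x - ((t + 1 : ℕ) : ℤ_[p]) * du Φ u x =
      ((Φ (u ((u ^ t) x)) - Φ ((u ^ t) x)) - (Φ (u x) - Φ x)) +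
        (du Φ (u ^ t) x - t * du Φ u x) := by
      unfold du; push_cast; ring
    rw [e]
    exact dvd_add h1 ih

/-- `f` is realised at level `j` with precision `R` -/
def W (s : ℕ) (Q : Subgroup (Pm p)) (Φ : Zf p) (f : Zf p) (R j : ℕ) : Prop :=
  ∃ u ∈ Q, IsKer p j u ∧ ∀ x, (p : ℤ_[p]) ^ (j - s + R) ∣ du Φ u x - (p : ℤ_[p]) ^ (j - s) * f x

theorem W_mono {f : Zf p} {R R' j : ℕ} (h : R ≤ R') (hW : W s Q Φ f R' j) : W s Q Φ f R j := by
  obtain ⟨u, hu, hk, h1⟩ := hW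
  exact ⟨u, hu, hk, fun x => (pow_dvd_pow _ (by omega)).trans (h1 x)⟩

theorem ker_step (B : BHyp p s Q X J α Φ)
    (hD : ∀ i j, J ≤ i → J ≤ j → ∀ u ∈ Q, IsKer p j u → ∀ x y, Agr p i x y →
    (p : ℤ_[p]) ^ (i + j - J - s) ∣ (Φ (u x) - Φ x) - (Φ (u y) - Φ y))
    {j : ℕ} (hj : J + 1 ≤ j) {u : Pm p} (huQ : u ∈ Q) (hu : IsKer p j u) :
    IsKer p (j + 1) (u ^ p) := by
  have hsJ := B.A.sJ
  refine f2 B (j := j) (by omega) (by omega) (isKer_pow hu p) (fun x => ?_)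
  have h1 := f4 B hD (by omega : J ≤ j) huQ hu p x
  have h2 : (p : ℤ_[p]) ^ (j + 1 - s) ∣ p * du Φ u x := by
    have : j + 1 - s = (j - s) + 1 := by omega
    rw [this, pow_succ']
    exact mul_dvd_mul_left _ (f1 B (by omega) hu x)
  have h3 : (p : ℤ_[p]) ^ (j + 1 - s) ∣ (p : ℤ_[p]) ^ (2 * j - J - s) := pow_dvd_pow _ (by omega)
  have := dvd_add (h3.trans h1) h2
  simpa using this

theorem W_step (B : BHyp p s Q X J α Φ)
    (hD : ∀ i j, J ≤ i → J ≤ j → ∀ u ∈ Q, IsKer p j u → ∀ x y, Agr p i x y →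
    (p : ℤ_[p]) ^ (i + j - J - s) ∣ (Φ (u x) - Φ x) - (Φ (u y) - Φ y))
    {f : Zf p} {R j : ℕ} (hj : J + R + 1 ≤ j) (hW : W s Q Φ f R j) : W s Q Φ f R (j + 1) := by
  obtain ⟨u, hu, hk, h1⟩ := hW
  have hsJ := B.A.sJ
  refine ⟨u ^ p, Q.pow_mem hu p, ker_step B hD (by omega) hu hk, fun x => ?_⟩
  have h2 := f4 B hD (by omega : J ≤ j) hu hk p x
  have h3 : (p : ℤ_[p]) ^ (j + 1 - s + R) ∣ (p : ℤ_[p]) ^ (2 * j - J - s) :=
    pow_dvd_pow _ (by omega)
  have h4 : (p : ℤ_[p]) ^ (j + 1 - s + R) ∣ p * (du Φ u x - (p : ℤ_[p]) ^ (j - s) * f x) := by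
    have : j + 1 - s + R = (j - s + R) + 1 := by omega
    rw [this, pow_succ']
    exact mul_dvd_mul_left _ (h1 x)
  have h5 := dvd_add (h3.trans h2) h4
  have e : j + 1 - s = (j - s) + 1 := by omega
  have e2 : du Φ (u ^ p) x - (p : ℤ_[p]) ^ (j + 1 - s) * f x =
    du Φ (u ^ p) x - p * du Φ u x + p * (du Φ u x - (p : ℤ_[p]) ^ (j - s) * f x) := by
    rw [e, pow_succ]; ring
  rw [e2]; exact h5

theorem W_up (B : BHyp p s Q X J α Φ)
    (hD : ∀ i j, J ≤ i → J ≤ j → ∀ u ∈ Q, IsKer p j u → ∀ x y, Agr p i x y →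
    (p : ℤ_[p]) ^ (i + j - J - s) ∣ (Φ (u x) - Φ x) - (Φ (u y) - Φ y))
    {f : Zf p} {R j : ℕ} (hj : J + R + 1 ≤ j) (hW : W s Q Φ f R j) {k : ℕ} (hk : j ≤ k) :
    W s Q Φ f R k := by
  induction k, hk using Nat.le_induction with
  | base => exact hW
  | succ k hk ih => exact W_step B hD (by omega) ih

theorem W_add (B : BHyp p s Q X J α Φ)
    (hD : ∀ i j, J ≤ i → J ≤ j → ∀ u ∈ Q, IsKer p j u → ∀ x y, Agr p i x y →
    (p : ℤ_[p]) ^ (i + j - J - s) ∣ (Φ (u x) - Φ x) - (Φ (u y) - Φ y))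
    {f f' : Zf p} {R j : ℕ} (hj : J + R + 1 ≤ j) (hW : W s Q Φ f R j) (hW' : W s Q Φ f' R j) :
    W s Q Φ (f + f') R j := by
  obtain ⟨u, hu, hk, h1⟩ := hW
  obtain ⟨u', hu', hk', h1'⟩ := hW'
  have hsJ := B.A.sJ
  refine ⟨u * u', Q.mul_mem hu hu', isKer_mul hk hk', fun x => ?_⟩
  have h2 := hD j j (by omega) (by omega) u hu hk (u' x) x (fun i hi => hk' x i hi)
  have h3 : (p : ℤ_[p]) ^ (j - s + R) ∣ (p : ℤ_[p]) ^ (j + j - J - s) := pow_dvd_pow _ (by omega)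
  have h4 := dvd_add (h3.trans h2) (dvd_add (h1 x) (h1' x))
  rw [du_mul]
  have e : du Φ u (u' x) + du Φ u' x - (p : ℤ_[p]) ^ (j - s) * (f + f') x =
    ((Φ (u (u' x)) - Φ (u' x)) - (Φ (u x) - Φ x)) +
    ((du Φ u x - (p : ℤ_[p]) ^ (j - s) * f x) + (du Φ u' x - (p : ℤ_[p]) ^ (j - s) * f' x)) := by
    simp only [Pi.add_apply, du]; ring
  rw [e]; exact h4

theorem W_smul (B : BHyp p s Q X J α Φ)
    (hD : ∀ i j, J ≤ i → J ≤ j → ∀ u ∈ Q, IsKer p j u → ∀ x y, Agr p i x y →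
    (p : ℤ_[p]) ^ (i + j - J - s) ∣ (Φ (u x) - Φ x) - (Φ (u y) - Φ y))
    {f : Zf p} {R j : ℕ} (hj : J + R + 1 ≤ j) (hW : W s Q Φ f R j) (z : ℤ_[p]) :
    W s Q Φ (z • f) R j := by
  obtain ⟨u, hu, hk, h1⟩ := hW
  have hsJ := B.A.sJ
  refine ⟨u ^ (z.appr R), Q.pow_mem hu _, isKer_pow hk _, fun x => ?_⟩
  have h2 := f4 B hD (by omega : J ≤ j) hu hk (z.appr R) x
  have h3 : (p : ℤ_[p]) ^ (j - s + R) ∣ (p : ℤ_[p]) ^ (2 * j - J - s) := pow_dvd_pow _ (by omega)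
  have h4 : (p : ℤ_[p]) ^ R ∣ z - z.appr R := Ideal.mem_span_singleton.1 (PadicInt.appr_spec R z)
  have h5 : (p : ℤ_[p]) ^ (j - s + R) ∣
      (p : ℤ_[p]) ^ (j - s) * (z - z.appr R) * f x := by
    rw [pow_add]
    exact (mul_dvd_mul_left _ h4).mul_right _
  have h6 := dvd_sub (dvd_add (h3.trans h2) ((h1 x).mul_left ((z.appr R : ℕ) : ℤ_[p]))) h5
  have e : du Φ (u ^ z.appr R) x - (p : ℤ_[p]) ^ (j - s) * (z • f) x =
    du Φ (u ^ z.appr R) x - z.appr R * du Φ u x +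
      (z.appr R : ℤ_[p]) * (du Φ u x - (p : ℤ_[p]) ^ (j - s) * f x) -
      (p : ℤ_[p]) ^ (j - s) * (z - z.appr R) * f x := by
    simp only [Pi.smul_apply, smul_eq_mul]; ring
  rw [e]; exact h6

/-- labels -/
theorem lab_iff (B : BHyp p s Q X J α Φ) {j : ℕ} (hj : s ≤ j) {u : Pm p} (hu : IsKer p j u)
    {c : ZMod p} (hc : ∀ x, (X ^ p ^ (j - s)) x j = x j + c) (x : ℕ → ZMod p) (z : ℤ_[p]) :
    (p : ℤ_[p]) ^ (j - s + 1) ∣ du Φ u x - (p : ℤ_[p]) ^ (j - s) * z ↔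
      u x j = x j + c * PadicInt.toZMod z := by
  set t : ℕ := (PadicInt.toZMod z).val with ht
  have hzt : (p : ℤ_[p]) ∣ z - t := by
    rw [dvd_iff_toZMod, map_sub, map_natCast, ht, ZMod.natCast_zmod_val, sub_self]
  have hY : IsKer p j ((X ^ p ^ (j - s)) ^ t) := isKer_pow (B.xp j hj).1 t
  have hYj : ∀ t : ℕ, ∀ x, ((X ^ p ^ (j - s)) ^ t) x j = x j + t * c := by
    intro t
    induction t with
    | zero => intro x; simp
    | succ t ih =>
      intro x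
      rw [pow_succ, Equiv.Perm.mul_apply, ih, hc]
      push_cast; ring
  have hΦ : Φ (((X ^ p ^ (j - s)) ^ t) x) = Φ x + (p : ℤ_[p]) ^ (j - s) * t := by
    rw [← pow_mul, phi_pow B]; push_cast; ring
  have hA : Agr p s (u x) (((X ^ p ^ (j - s)) ^ t) x) := by
    intro i hi
    rw [hu x i (hi.trans_le hj), hY x i (hi.trans_le hj)]
  have hb := B.chart.base (j - s + 1) _ _ hA
  have hs1 : s + (j - s + 1) = j + 1 := by omega
  rw [hs1] at hb
  have h1 : (p : ℤ_[p]) ^ (j - s + 1) ∣ du Φ u x - (p : ℤ_[p]) ^ (j - s) * z ↔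
      (p : ℤ_[p]) ^ (j - s + 1) ∣ Φ (u x) - Φ (((X ^ p ^ (j - s)) ^ t) x) := by
    have h2 : (p : ℤ_[p]) ^ (j - s + 1) ∣ (p : ℤ_[p]) ^ (j - s) * (z - t) := by
      rw [pow_succ]; exact mul_dvd_mul_left _ hzt
    have e : Φ (u x) - Φ (((X ^ p ^ (j - s)) ^ t) x) =
      du Φ u x - (p : ℤ_[p]) ^ (j - s) * z + (p : ℤ_[p]) ^ (j - s) * (z - t) := by
      rw [hΦ]; unfold du; ring
    rw [e]
    exact ⟨fun h => dvd_add h h2, fun h => by simpa using dvd_sub h h2⟩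
  rw [h1, ← hb]
  have h3 : Agr p (j + 1) (u x) (((X ^ p ^ (j - s)) ^ t) x) ↔
      u x j = ((X ^ p ^ (j - s)) ^ t) x j := by
    constructor
    · intro h; exact h j (by omega)
    · intro h i hi
      rcases Nat.lt_succ_iff_lt_or_eq.1 hi with h' | h'
      · rw [hu x i h', hY x i h']
      · rw [h']; exact h
  rw [h3, hYj, ht, ZMod.natCast_zmod_val, mul_comm]

end

theorem main : S_LAM := by
  intro hD4 hDISP p _ s Q X J α Φ e B E
  have hD := hDISP hD4 p s Q X J α Φ B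
  have hsJ := B.A.sJ
  have tri_inv : ∀ g ∈ Q, IsTri p g⁻¹ := fun g hg => (hD4 p g g (B.tri g hg) (B.tri g hg)).2.1
  -- the module
  let Λ : Submodule ℤ_[p] (Zf p) :=
    { carrier := {f | ∀ R : ℕ, ∃ j, J + R + 1 ≤ j ∧ W s Q Φ f R j}
      zero_mem' := by
        intro R
        refine ⟨J + R + 1, le_rfl, 1, Q.one_mem, fun x i _ => rfl, fun x => ?_⟩
        rw [du_one]
        simp
      add_mem' := by
        intro f f' hf hf' R
        obtain ⟨j, hj, hW⟩ := hf R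
        obtain ⟨j', hj', hW'⟩ := hf' R
        refine ⟨max j j', le_trans hj (le_max_left _ _), ?_⟩
        exact W_add B hD (le_trans hj (le_max_left _ _)) (W_up B hD hj hW (le_max_left _ _))
          (W_up B hD hj' hW' (le_max_right _ _))
      smul_mem' := by
        intro z f hf R
        obtain ⟨j, hj, hW⟩ := hf R
        exact ⟨j, hj, W_smul B hD hj hW z⟩ }
  have hmem : ∀ f, f ∈ Λ ↔ ∀ R : ℕ, ∃ j, J + R + 1 ≤ j ∧ W s Q Φ f R j := fun f => Iff.rfl
  have hone : (fun _ => 1 : Zf p) ∈ Λ := by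
    rw [hmem]
    intro R
    refine ⟨J + R + 1, le_rfl, X ^ p ^ (J + R + 1 - s), Q.pow_mem B.XQ _,
      (B.xp _ (by omega)).1, fun x => ?_⟩
    have : du Φ (X ^ p ^ (J + R + 1 - s)) x = (p : ℤ_[p]) ^ (J + R + 1 - s) := by
      unfold du; rw [phi_pow B]; push_cast; ring
    rw [this]; simp
  -- scaling in U
  have hscale : ∀ (n : ℕ) (c : ZMod p) (f : Fn p), c ≠ 0 → (fun x => c * f x) ∈ U p n →
      f ∈ U p n := by
    intro n c f hc h
    have := (U p n).smul_mem c⁻¹ h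
    have e : (c⁻¹ • fun x => c * f x) = f := by
      funext x
      simp only [Pi.smul_apply, smul_eq_mul]
      rw [← mul_assoc, inv_mul_cancel₀ hc, one_mul]
    rwa [e] at this
  have hpure : ∀ f ∈ Λ, (∀ x, (p : ℤ_[p]) ∣ f x) → ∃ h ∈ Λ, ∀ x, f x = p * h x := by
    intro f hf hdiv
    choose h hh using hdiv
    refine ⟨h, ?_, hh⟩
    rw [hmem]
    intro R
    obtain ⟨j, hj, u, hu, hk, h1⟩ := (hmem f).1 hf (R + 1)
    have e : ∀ x, (p : ℤ_[p]) ^ (j - s) * f x = (p : ℤ_[p]) ^ (j + 1 - s) * h x := by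
      intro x
      have : j + 1 - s = (j - s) + 1 := by omega
      rw [hh x, this, pow_succ]; ring
    have h2 : ∀ x, (p : ℤ_[p]) ^ (j + 1 - s + R) ∣ du Φ u x - (p : ℤ_[p]) ^ (j + 1 - s) * h x := by
      intro x
      rw [← e]
      have : j + 1 - s + R = j - s + (R + 1) := by omega
      rw [this]; exact h1 x
    refine ⟨j + 1, by omega, u, hu, ?_, h2⟩
    refine f2 B (j := j) (by omega) (by omega) hk (fun x => ?_)
    have h3 : (p : ℤ_[p]) ^ (j + 1 - s) ∣ (p : ℤ_[p]) ^ (j + 1 - s + R) := pow_dvd_pow _ (by omega)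
    have h4 := dvd_add (h3.trans (h2 x)) (dvd_mul_right ((p : ℤ_[p]) ^ (j + 1 - s)) (h x))
    simpa using h4
  have hact : ∀ g ∈ Q, ∀ f ∈ Λ, (fun x => f (g x) * e g x) ∈ Λ := by
    intro g hg f hf
    rw [hmem]
    intro R
    obtain ⟨j, hj, u, hu, hk, h1⟩ := (hmem f).1 hf R
    have hv : IsKer p j (g⁻¹ * u * g) := isKer_conj hk (tri_inv g hg)
    refine ⟨j, hj, g⁻¹ * u * g, Q.mul_mem (Q.mul_mem (Q.inv_mem hg) hu) hg, hv, fun x => ?_⟩
    have h2 := E.gd g hg j (by omega) x ((g⁻¹ * u * g) x) (fun i hi => (hv x i hi).symm)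
    have e1 : g ((g⁻¹ * u * g) x) = u (g x) := by
      rw [Equiv.Perm.mul_apply, Equiv.Perm.mul_apply]
      exact g.apply_symm_apply _
    rw [e1] at h2
    have h3 : (p : ℤ_[p]) ^ (j - s + R) ∣ (p : ℤ_[p]) ^ (2 * j - J - s - 1) :=
      pow_dvd_pow _ (by omega)
    have h4 := dvd_add (h3.trans h2) ((h1 (g x)).mul_left (e g x))
    have e2 : du Φ (g⁻¹ * u * g) x - (p : ℤ_[p]) ^ (j - s) * (f (g x) * e g x) =
      Φ ((g⁻¹ * u * g) x) - Φ x - e g x * (Φ (u (g x)) - Φ (g x)) +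
        e g x * (du Φ u (g x) - (p : ℤ_[p]) ^ (j - s) * f (g x)) := by
      unfold du; ring
    rw [e2]; exact h4
  refine ⟨Λ, ?_⟩
  refine
    { one_mem := hone
      red := ?_
      surj := ?_
      pure := hpure
      closed := ?_
      act := hact
      lip := ?_
      top := ?_ }
  · -- red
    intro f hf
    obtain ⟨j, hj, u, hu, hk, h1⟩ := (hmem f).1 hf 1
    obtain ⟨_, c, hc0, hc⟩ := B.xp j (by omega)
    refine hscale α c _ hc0 ?_
    rw [B.A.lab j (by omega)]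
    refine ⟨u, hu, hk, fun x => ?_⟩
    exact (lab_iff B (by omega) hk hc x (f x)).1 (h1 x)
  · -- surj
    intro φ hφ
    obtain ⟨hYk, c, hc0, hc⟩ := B.xp (J + 2) (by omega)
    have h1 : (fun x => c * φ x) ∈ U p α := (U p α).smul_mem c hφ
    rw [B.A.lab (J + 2) (by omega)] at h1
    obtain ⟨u, hu, hk, hux⟩ := h1
    have hkm : ∀ m, IsKer p (J + 2 + m) (u ^ p ^ m) := by
      intro m
      induction m with
      | zero => simpa using hk
      | succ m ih =>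
        have := ker_step B hD (by omega : J + 1 ≤ J + 2 + m) (Q.pow_mem hu (p ^ m)) ih
        rw [← pow_mul, ← pow_succ] at this
        exact this
    have hdiv : ∀ m x, ∃ z, du Φ (u ^ p ^ m) x = (p : ℤ_[p]) ^ (J + 2 + m - s) * z := fun m x =>
      f1 B (by omega) (hkm m) x
    choose lam hlam using hdiv
    have hstep : ∀ x m, (p : ℤ_[p]) ^ (m + 1) ∣ lam (m + 1) x - lam m x := by
      intro x m
      have h2 := f4 B hD (by omega : J ≤ J + 2 + m) (Q.pow_mem hu (p ^ m)) (hkm m) p x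
      rw [← pow_mul, ← pow_succ, hlam, hlam] at h2
      have e1 : J + 2 + (m + 1) - s = (J + 2 + m - s) + 1 := by omega
      have e2 : (p : ℤ_[p]) ^ (J + 2 + (m + 1) - s) * lam (m + 1) x -
          p * ((p : ℤ_[p]) ^ (J + 2 + m - s) * lam m x) =
          (p : ℤ_[p]) ^ (J + 2 + m - s + 1) * (lam (m + 1) x - lam m x) := by
        rw [e1, pow_succ]; ring
      rw [e2] at h2
      have e3 : 2 * (J + 2 + m) - J - s = (J + 2 + m - s + 1) + (m + 1) := by omega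
      rw [e3, pow_add] at h2
      exact (mul_dvd_mul_iff_left (pow_ne _)).1 h2
    have hlim : ∀ x, ∃ f, ∀ m, (p : ℤ_[p]) ^ (m + 1) ∣ f - lam m x := fun x =>
      exists_lim (fun m => lam m x) (hstep x)
    choose f hf using hlim
    refine ⟨f, ?_, ?_⟩
    · rw [hmem]
      intro R
      refine ⟨J + 2 + R, by omega, u ^ p ^ R, Q.pow_mem hu _, hkm R, fun x => ?_⟩
      rw [hlam]
      have h3 := hf x R
      have h4 : (p : ℤ_[p]) ^ (J + 2 + R - s + R) ∣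
          (p : ℤ_[p]) ^ (J + 2 + R - s) * (f x - lam R x) := by
        rw [pow_add]
        exact mul_dvd_mul_left _ ((pow_dvd_pow _ (by omega)).trans h3)
      have e1 : (p : ℤ_[p]) ^ (J + 2 + R - s) * lam R x - (p : ℤ_[p]) ^ (J + 2 + R - s) * f x =
        -((p : ℤ_[p]) ^ (J + 2 + R - s) * (f x - lam R x)) := by ring
      rw [e1, dvd_neg]; exact h4
    · funext x
      have h3 : PadicInt.toZMod (f x) = PadicInt.toZMod (lam 0 x) := by
        have := hf x 0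
        rw [zero_add, pow_one, dvd_iff_toZMod, map_sub, sub_eq_zero] at this
        exact this
      have h4 := (lab_iff B (by omega) hk hc x (lam 0 x)).1 (by
        have := hlam 0 x
        rw [pow_zero, pow_one, add_zero] at this
        rw [this, sub_self]; exact dvd_zero _)
      rw [hux] at h4
      have h5 : c * φ x = c * PadicInt.toZMod (lam 0 x) := add_left_cancel h4
      have h6 := mul_left_cancel₀ hc0 h5
      show PadicInt.toZMod (f x) = φ x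
      rw [h3, h6]
  · -- closed
    intro f hf
    rw [hmem]
    intro R
    obtain ⟨h, hh, hd⟩ := hf R
    obtain ⟨j, hj, u, hu, hk, h1⟩ := (hmem h).1 hh R
    refine ⟨j, hj, u, hu, hk, fun x => ?_⟩
    have h2 : (p : ℤ_[p]) ^ (j - s + R) ∣ (p : ℤ_[p]) ^ (j - s) * (f x - h x) := by
      rw [pow_add]; exact mul_dvd_mul_left _ (hd x)
    have h3 := dvd_sub (h1 x) h2
    have e1 : du Φ u x - (p : ℤ_[p]) ^ (j - s) * f x =
      du Φ u x - (p : ℤ_[p]) ^ (j - s) * h x - (p : ℤ_[p]) ^ (j - s) * (f x - h x) := by ring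
    rw [e1]; exact h3
  · -- lip
    intro f hf i hi x y hxy
    obtain ⟨j, hj, u, hu, hk, h1⟩ := (hmem f).1 hf (i - J)
    have h2 := hD i j hi (by omega) u hu hk x y hxy
    have e0 : i + j - J - s = j - s + (i - J) := by omega
    rw [e0] at h2
    have h3 := dvd_add (dvd_sub h2 (h1 x)) (h1 y)
    have e1 : Φ (u x) - Φ x - (Φ (u y) - Φ y) - (du Φ u x - (p : ℤ_[p]) ^ (j - s) * f x) +
      (du Φ u y - (p : ℤ_[p]) ^ (j - s) * f y) = (p : ℤ_[p]) ^ (j - s) * (f x - f y) := by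
      unfold du; ring
    rw [e1, pow_add] at h3
    exact (mul_dvd_mul_iff_left (pow_ne _)).1 h3
  · -- top
    obtain ⟨h, hhQ, htop⟩ := B.A.top (J + 4) (by omega)
    have heh : (fun x => (1 : ℤ_[p]) * e h x) ∈ Λ := hact h hhQ _ hone
    have hsub : (fun x => (1 : ℤ_[p]) * e h x) - (fun _ => 1) ∈ Λ := Λ.sub_mem heh hone
    obtain ⟨f, hfΛ, hf⟩ := hpure _ hsub (fun x => by
      have := E.one h hhQ x
      simpa using this)
    have hf' : ∀ x, e h x = 1 + p * f x := by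
      intro x
      have := hf x
      simp only [Pi.sub_apply, one_mul] at this
      linear_combination this
    refine ⟨h, hhQ, f, hfΛ, hf', fun hbad => htop ?_⟩
    set Y := X ^ p ^ (J + 4 - s) with hY
    have hYk : IsKer p (J + 4) Y := (B.xp (J + 4) (by omega)).1
    obtain ⟨_, c, hc0, hc⟩ := B.xp (J + 4 + 1) (by omega)
    have hck : IsKer p (J + 4) (cm Y h) := by
      have : cm Y h = Y⁻¹ * (h⁻¹ * Y * h) := by unfold cm; group
      rw [this]
      exact isKer_mul (isKer_inv hYk) (isKer_conj hYk (tri_inv h hhQ))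
    have hdc : ∀ x, du Φ (cm Y h) x = du Φ (h⁻¹ * Y * h) x - (p : ℤ_[p]) ^ (J + 4 - s) := by
      intro x
      have e1 : cm Y h = Y⁻¹ * (h⁻¹ * Y * h) := by unfold cm; group
      rw [e1, du_mul]
      have e2 : du Φ Y⁻¹ ((h⁻¹ * Y * h) x) = - (p : ℤ_[p]) ^ (J + 4 - s) := by
        unfold du
        have e3 := phi_pow B (p ^ (J + 4 - s)) (Y⁻¹ ((h⁻¹ * Y * h) x))
        rw [← hY] at e3
        have e4 : Y (Y⁻¹ ((h⁻¹ * Y * h) x)) = (h⁻¹ * Y * h) x := Y.apply_symm_apply _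
        rw [e4] at e3
        rw [e3]; push_cast; ring
      rw [e2]; ring
    have hdc2 : ∀ x, (p : ℤ_[p]) ^ (J + 4 + 1 - s + 1) ∣
        du Φ (cm Y h) x - (p : ℤ_[p]) ^ (J + 4 + 1 - s) * f x := by
      intro x
      have h1 := E.lim h hhQ (J + 4) (by omega) x
      have h2 : (p : ℤ_[p]) ^ (J + 4 + 1 - s + 1) ∣ (p : ℤ_[p]) ^ (2 * (J + 4) - J - s - 1) :=
        pow_dvd_pow _ (by omega)
      have h3 := h2.trans h1
      have e1 : J + 4 + 1 - s = (J + 4 - s) + 1 := by omega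
      have e2 : du Φ (cm Y h) x - (p : ℤ_[p]) ^ (J + 4 + 1 - s) * f x =
        Φ ((h⁻¹ * X ^ p ^ (J + 4 - s) * h) x) - Φ x - (p : ℤ_[p]) ^ (J + 4 - s) * e h x := by
        rw [hdc, hf', e1, pow_succ]
        unfold du
        rw [← hY]; ring
      rw [e2]; exact h3
    have hck2 : IsKer p (J + 4 + 1) (cm Y h) := by
      refine f2 B (j := J + 4) (by omega) (by omega) hck (fun x => ?_)
      have h2 : (p : ℤ_[p]) ^ (J + 4 + 1 - s) ∣ (p : ℤ_[p]) ^ (J + 4 + 1 - s + 1) :=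
        pow_dvd_pow _ (by omega)
      have h3 := dvd_add (h2.trans (hdc2 x)) (dvd_mul_right ((p : ℤ_[p]) ^ (J + 4 + 1 - s)) (f x))
      simpa using h3
    have hlab : ∀ x, (cm Y h) x (J + 4 + 1) = x (J + 4 + 1) + c * PadicInt.toZMod (f x) :=
      fun x => (lab_iff B (by omega) hck2 hc x (f x)).1 (hdc2 x)
    have e1 : (fun x => (cm Y h) x (J + 4 + 1) - x (J + 4 + 1)) = c • rd p f := by
      funext x
      rw [hlab x]
      simp [rd]
    rw [e1]
    exact (U p (α - 1)).smul_mem c hbad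

end Pool.Agent.W450.SG.LAM
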